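import Pool.Agent.H529R3.Lev.MainE
import Pool.Agent.H529R3.Lev.SpaceTime

/-!
# How many oracles make `SPACE 2_m^POL` equal to `TIME 2_{m+1}^POL`?

For every `m` and every gauge `f`, the set of the oracles relative to which `SPACE 2_m^POL` and
`TIME 2_{m+1}^POL` are equal is a null set for `f` if and only if for every `ε > 0` there are
infinitely many `N` with `f N ≤ 2 ^ ((log log ... log N) ^ ε)`, with `m + 1` logarithms. The same
holds for the set of those of these oracles that make all lower consecutive levels of the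
polynomial space-time hierarchy different.
-/

set_option autoImplicit false

namespace Pool.Agent.Results.MP_47ff19_lc.GaugeSpaceTime

open Pool.Agent.NPC Pool.Agent.H620R2.Gauge H529R3.Lev

theorem result (m : ℕ) (f : ℕ → ℝ) :
    (∀ O : Set Oracle,
      (∀ A : Oracle, (∀ L, IsTime (m + 1) A L → ReducesPar m A L) →
        (∀ i < m, (∃ L, IsSpace i A L ∧ ¬ IsTHpoly i A L) ∧
          ∃ L, IsTime (i + 1) A L ∧ ¬ IsSpacePoly i A L) → A ∈ O) →
      (∀ A ∈ O, ∀ L, IsTime (m + 1) A L → IsSpacePoly m A L) →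
      (Null f O ↔ ∀ ε : ℝ, 0 < ε → ∃ᶠ N : ℕ in Filter.atTop,
        f N ≤ 2 ^ ((Real.logb 2)^[m + 1] (N : ℝ)) ^ ε)) ∧
    (Null f {A : Oracle | ∀ L, IsSpace m A L ↔ IsTime (m + 1) A L} ↔
      ∀ ε : ℝ, 0 < ε → ∃ᶠ N : ℕ in Filter.atTop,
        f N ≤ 2 ^ ((Real.logb 2)^[m + 1] (N : ℝ)) ^ ε) ∧
    (Null f {A : Oracle | (∀ L, IsSpace m A L ↔ IsTime (m + 1) A L) ∧
        ∀ i < m, (¬ ∀ L, IsTime i A L ↔ IsSpace i A L) ∧
          ¬ ∀ L, IsSpace i A L ↔ IsTime (i + 1) A L} ↔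
      ∀ ε : ℝ, 0 < ε → ∃ᶠ N : ℕ in Filter.atTop,
        f N ≤ 2 ^ ((Real.logb 2)^[m + 1] (N : ℝ)) ^ ε) := by
  refine ⟨fun O h1 h2 => exact_even m f O h1 h2, exact_even m f _ ?_ ?_,
    exact_even m f _ ?_ ?_⟩
  · intro A hA _ L
    exact ⟨fun h => h.isTime, fun h => (hA L h).isSpace⟩
  · intro A hA L hL
    exact ((hA L).2 hL).isSpacePoly
  · intro A hA h3
    refine ⟨fun L => ⟨fun h => h.isTime, fun h => (hA L h).isSpace⟩, fun i hi => ⟨?_, ?_⟩⟩
    · intro hcon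
      obtain ⟨L, hL, hL'⟩ := (h3 i hi).1
      exact hL' ((hcon L).2 hL).isTH.isTHpoly
    · intro hcon
      obtain ⟨L, hL, hL'⟩ := (h3 i hi).2
      exact hL' ((hcon L).2 hL).isSpacePoly
  · intro A hA L hL
    exact ((hA.1 L).2 hL).isSpacePoly

end Pool.Agent.Results.MP_47ff19_lc.GaugeSpaceTime
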