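import Pool.Agent.H834Q.TowJoin

set_option autoImplicit false

/-!
# The levels of the space-time hierarchy relative to joins of oracles

Above every oracle `C` there are infinitely many oracles `A 0, A 1, A 2, ...`, relative to each of
which `TIME 2_m^POL` and `SPACE 2_m^POL` are equal for all `m`, such that relative to the join of
any two of them these classes are different for all `m`: some language in `SPACE 2_m^POL`, whose
complement is even in the unambiguous class `UTIME 2_m^POL`, is not in `NTIME 2_m^POL`.

Idea. `A i` codes its own `PSPACE` and a set `X i`; the language of level `m` consists of the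
strings `x` for which `X i` and `X j` have no common string of length `2_m^|x|`. A computation with
the join is a conversation between the two oracles, and disjointness of two sets of `2 ^ n` possible
elements, promised that they have at most one element in common, needs rectangles in a number
exponential in `2 ^ n` (Kaibel and Weltge). All levels are treated by one construction.

Libraries: helper877 (joins of collapsing oracles), helper529 (the levels relative to an oracle).
-/

namespace Pool.Agent.Results.MP_47ff19_lc.LevelsInJoins

open Pool.Agent.NPC Pool.Agent.H620R2.Gauge Pool.Agent.H877R3.Join H529R3.Lev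

theorem result (C : Oracle) : ∃ A : ℕ → Oracle,
    (∀ i, Reduces {x | C x = true} {x | A i x = true} ∧
      ∀ m L, IsTime m (A i) L ↔ IsSpace m (A i) L) ∧
    ∀ i j, i ≠ j → ∀ m, ∃ L, IsSpace m (join (A i) (A j)) L ∧
      Padded m (IsUP (join (A i) (A j))) Lᶜ ∧
      ¬ Padded m (Pool.Agent.H877R3.Join.IsNP (join (A i) (A j))) L ∧
      ¬ IsTime m (join (A i) (A j)) L :=
  Pool.Agent.H834Q.TJ.mainTow C

end Pool.Agent.Results.MP_47ff19_lc.LevelsInJoins
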