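import Pool.Agent.H529R3.Lev.Lift

/-!
# How many oracles collapse some level of the polynomial space-time hierarchy?

Relative to every oracle, either all consecutive classes `C_j`, `C_{j+1}` with `j ≥ 1` are
different, or they are equal for all large odd `j`, or they are equal for all large even `j`.
The set of the oracles relative to which `C_j = C_{j+1}` for some `j ≥ 1` is a null set for the
gauge `f` if and only if for every `m` and every `ε > 0` there are infinitely many `N` with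
`f N ≤ 2 ^ ((log log ... log N) ^ ε)`, with `m + 1` logarithms. The same holds if only odd `j`, or
only even `j`, are considered.
-/

set_option autoImplicit false

namespace Pool.Agent.Results.MP_47ff19_lc.WholeChain

open Pool.Agent.NPC Pool.Agent.H620R2.Gauge H529R3.Lev

theorem result :
    (∀ A : Oracle,
      (∀ i, (¬ ∀ L, IsTime i A L ↔ IsSpace i A L) ∧
        ¬ ∀ L, IsSpace i A L ↔ IsTime (i + 1) A L) ∨
      (∃ i, ∀ j ≥ i, ∀ L, IsTime j A L ↔ IsSpace j A L) ∨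
      ∃ i, ∀ j ≥ i, ∀ L, IsSpace j A L ↔ IsTime (j + 1) A L) ∧
    ∀ f : ℕ → ℝ,
      (∀ O : Set Oracle,
        (∀ m, (∀ A : Oracle, (∀ L, IsSpace m A L → ReducesTime m A L) → A ∈ O) ∨
          ∀ A : Oracle, (∀ L, IsTime (m + 1) A L → ReducesPar m A L) → A ∈ O) →
        (∀ A ∈ O, ∃ i, (∀ L, IsSpace i A L → IsTHpoly i A L) ∨
          ∀ L, IsTime (i + 1) A L → IsSpacePoly i A L) →
        (Null f O ↔ ∀ m : ℕ, ∀ ε : ℝ, 0 < ε → ∃ᶠ N : ℕ in Filter.atTop,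
          f N ≤ 2 ^ ((Real.logb 2)^[m + 1] (N : ℝ)) ^ ε)) ∧
      (Null f {A : Oracle | ∃ i, (∀ L, IsTime i A L ↔ IsSpace i A L) ∨
          ∀ L, IsSpace i A L ↔ IsTime (i + 1) A L} ↔
        ∀ m : ℕ, ∀ ε : ℝ, 0 < ε → ∃ᶠ N : ℕ in Filter.atTop,
          f N ≤ 2 ^ ((Real.logb 2)^[m + 1] (N : ℝ)) ^ ε) ∧
      (Null f {A : Oracle | ∃ i, ∀ j ≥ i, ∀ L, IsTime j A L ↔ IsSpace j A L} ↔
        ∀ m : ℕ, ∀ ε : ℝ, 0 < ε → ∃ᶠ N : ℕ in Filter.atTop,
          f N ≤ 2 ^ ((Real.logb 2)^[m + 1] (N : ℝ)) ^ ε) ∧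
      (Null f {A : Oracle | ∃ i, ∀ j ≥ i, ∀ L, IsSpace j A L ↔ IsTime (j + 1) A L} ↔
        ∀ m : ℕ, ∀ ε : ℝ, 0 < ε → ∃ᶠ N : ℕ in Filter.atTop,
          f N ≤ 2 ^ ((Real.logb 2)^[m + 1] (N : ℝ)) ^ ε) := by
  refine ⟨dichotomy, fun f => ⟨fun O h1 h2 => exact_some f O h1 h2, exact_some f _ ?_ ?_,
    exact_some f _ ?_ ?_, exact_some f _ ?_ ?_⟩⟩
  · intro m
    left
    intro A hA
    exact ⟨m, Or.inl fun L => ⟨fun h => h.isSpace, fun h => (hA L h).isTime⟩⟩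
  · rintro A ⟨i, hi | hi⟩
    · exact ⟨i, Or.inl fun L hL => ((hi L).2 hL).isTH.isTHpoly⟩
    · exact ⟨i, Or.inr fun L hL => ((hi L).2 hL).isSpacePoly⟩
  · intro m
    left
    intro A hA
    exact ⟨m, fun j hj => lift_odd' (fun L => ⟨fun h => h.isSpace, fun h => (hA L h).isTime⟩) hj⟩
  · rintro A ⟨i, hi⟩
    exact ⟨i, Or.inl fun L hL => ((hi i le_rfl L).2 hL).isTH.isTHpoly⟩
  · intro m
    right
    intro A hA
    exact ⟨m, fun j hj => lift_even' (fun L => ⟨fun h => h.isTime, fun h => (hA L h).isSpace⟩) hj⟩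
  · rintro A ⟨i, hi⟩
    exact ⟨i, Or.inr fun L hL => ((hi i le_rfl L).2 hL).isSpacePoly⟩

end Pool.Agent.Results.MP_47ff19_lc.WholeChain
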